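import Pool.Agent.Lib.MP_5de024_nt.S.V.Tw
import Pool.Agent.Lib.MP_5de024_nt.S.V.Exact
import Pool.Agent.Lib.MP_5de024_nt.S.V.Cst
import Pool.Agent.Lib.MP_5de024_nt.S.FinX.EtNi

set_option autoImplicit false

namespace Pool.Agent.Results.MP_5de024_nt.WreathClosure

/-- the subgroup `p(E)` generated by the elements of `p`-power order -/
def pgen (p : ℕ) (E : Type) [Group E] : Subgroup E :=
  Subgroup.closure {g : E | ∃ n : ℕ, g ^ (p ^ n) = 1}

/-- `E` is the Galois group of a finite Galois extension `L` of `F_p(t)` unramified over `F_p[t]`,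
and `p(E)` is the group of the automorphisms which fix the constants of `L` -/
def Realised (p : ℕ) [Fact p.Prime] (E : Type) [Group E] : Prop :=
  ∃ (L : Type) (_ : Field L) (_ : Algebra (RatFunc (ZMod p)) L)
    (_ : Algebra (Polynomial (ZMod p)) L)
    (_ : IsScalarTower (Polynomial (ZMod p)) (RatFunc (ZMod p)) L),
    FiniteDimensional (RatFunc (ZMod p)) L ∧ IsGalois (RatFunc (ZMod p)) L ∧
    Algebra.Etale (Polynomial (ZMod p)) (integralClosure (Polynomial (ZMod p)) L) ∧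
    ∃ e : E ≃* (L ≃ₐ[RatFunc (ZMod p)] L),
      ∀ g : E, g ∈ pgen p E ↔ ∀ c : L, (∃ n : ℕ, 0 < n ∧ c ^ (p ^ n) = c) → e g c = c

/-- the class of groups obtained from realised groups by the operations below -/
inductive Cls (p : ℕ) [Fact p.Prime] : ∀ (E : Type) [Group E], Prop
  | real (E : Type) [Group E] [Finite E] (h : Realised p E) : Cls p E
  | cyc (E : Type) [Group E] [Finite E] [IsCyclic E] (h : (Nat.card E).Coprime p) : Cls p E
  | sln (n : ℕ) (F : Type) [Field F] [Finite F] [CharP F p] :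
      Cls p (Matrix.SpecialLinearGroup (Fin n) F)
  | quo (E E' : Type) [Group E] [Group E'] (f : E →* E') (hf : Function.Surjective f)
      (h : Cls p E) : Cls p E'
  | pker (E : Type) [Group E] [Finite E] (U : Subgroup E) [U.Normal] (hU : IsPGroup p U)
      (h : Cls p (E ⧸ U)) : Cls p E
  | supp (E : Type) [Group E] [Finite E] (A C : Subgroup E) [A.Normal]
      (hA : ∀ a ∈ A, ∀ b ∈ A, a * b = b * a) (hcop : (Nat.card A).Coprime p)
      (hle : A ≤ pgen p E) (hsup : A ⊔ C = ⊤) (h : Cls p C) : Cls p E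
  | cent (E : Type) [Group E] [Finite E] (V : Subgroup E) [V.Normal]
      (hcop : (Nat.card V).Coprime p) (hle : V ≤ pgen p E)
      (hc : ∀ v ∈ V, ∀ h ∈ pgen p E, v * h = h * v) (h : Cls p (E ⧸ V)) : Cls p E
  | lay (E : Type) [Group E] [Finite E] (K : Subgroup E) [K.Normal]
      (hsol : Group.IsSolvable K)
      (hgen : Subgroup.closure {g : E | g ∈ K ∧ ∃ n : ℕ, g ^ (p ^ n) = 1} = K)
      (hab : ∀ l : ℕ, l.Prime → l ≠ p → ∀ S : Subgroup E, S ≤ K → IsPGroup l S →
        ∀ a ∈ S, ∀ b ∈ S, a * b = b * a)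
      (h : Cls p (E ⧸ K)) : Cls p E
  | cst (E : Type) [Group E] [Finite E] (V : Subgroup E) [V.Normal]
      (hV : pgen p E ⊓ V = ⊥) (hc : ∃ g : E, pgen p E ⊔ Subgroup.zpowers g = ⊤)
      (h : Cls p (E ⧸ V)) : Cls p E
  | wr (S G Ω : Type) [Group S] [Group G] [MulAction G Ω] [Finite Ω] (hS : pgen p S = ⊤)
      (h1 : Cls p S) (h2 : Cls p G) : Cls p ((Ω → S) ⋊[mulAutArrow] G)

theorem rf_of_real (p : ℕ) [Fact p.Prime] (E : Type) [Group E] (h : Realised p E) :
    Pool.Agent.AB3.RF p E (Pool.Agent.AB3.pg p E) := by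
  obtain ⟨L, _, _, _, _, hfd, hgal, het, e, he⟩ := h
  refine ⟨L, inferInstance, inferInstance, inferInstance, inferInstance,
    (e.symm : (L ≃ₐ[RatFunc (ZMod p)] L) →* E),
    ⟨hfd, hgal, Pool.Agent.AB3.ni_of_et p L het⟩, e.symm.surjective, ?_⟩
  ext g
  constructor
  · rintro ⟨σ, hσ, rfl⟩
    refine (he _).2 ?_
    intro c hc
    have h1 : e ((e.symm : (L ≃ₐ[RatFunc (ZMod p)] L) →* E) σ) = σ := e.apply_symm_apply σ
    rw [h1]
    exact hσ c hc
  · intro hg
    exact ⟨e g, (he g).1 hg, e.symm_apply_apply g⟩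

theorem real_of_rf (p : ℕ) [Fact p.Prime] (E : Type) [Group E]
    (h : Pool.Agent.AB3.RF p E (Pool.Agent.AB3.pg p E)) : Realised p E := by
  obtain ⟨L, _, _, _, _, e, ⟨hfd, hgal, hni⟩, he⟩ := Pool.Agent.AB3.rf_exact p E _ h
  exact ⟨L, inferInstance, inferInstance, inferInstance, inferInstance, hfd, hgal,
    Pool.Agent.AB.et_of_ni p L hni, e, he⟩

/-- Every group of the class is finite and is the Galois group of a finite Galois extension `L`
of `F_p(t)` unramified over `F_p[t]` for which `p(E)` is the group of the automorphisms fixing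
the constants. -/
theorem result (p : ℕ) [Fact p.Prime] (E : Type) [i : Group E] (h : Cls p E) :
    Finite E ∧ Realised p E := by
  have hp : p.Prime := Fact.out
  suffices H : Finite E ∧ Pool.Agent.AB3.RF p E (Pool.Agent.AB3.pg p E) from
    ⟨H.1, real_of_rf p E H.2⟩
  induction h with
  | @real E _ _ h => exact ⟨inferInstance, rf_of_real p E h⟩
  | @cyc E _ _ _ h =>
    refine ⟨inferInstance, ?_⟩
    rw [Pool.Agent.AB3.pg_eq_bot p E h]
    exact Pool.Agent.AB3.rf_base p E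
  | @sln n F _ _ _ =>
    refine ⟨inferInstance, ?_⟩
    have h1 : Pool.Agent.AB3.pg p (Matrix.SpecialLinearGroup (Fin n) F) = ⊤ :=
      Pool.Agent.AB3.pg_sl p n F
    rw [h1]
    exact Pool.Agent.AB3.rf_sl p F n
  | @quo E E' _ _ f hf _ ih =>
    obtain ⟨h1, h2⟩ := ih
    refine ⟨Finite.of_surjective f hf, ?_⟩
    have h3 := Pool.Agent.AB3.rf_map p f hf h2
    rwa [Pool.Agent.AB3.pg_map p hp f hf] at h3
  | @pker E _ _ U _ hU _ ih => exact ⟨inferInstance, Pool.Agent.AB3.rf_stepA p E U hU ih.2⟩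
  | @supp E _ _ A C _ hA hcop hle hsup _ ih =>
    exact ⟨inferInstance, Pool.Agent.AB3.rf_supp p E A C hA hcop hle hsup ih.2⟩
  | @cent E _ _ V _ hcop hle hc _ ih =>
    exact ⟨inferInstance, Pool.Agent.AB3.rf_central p E V hcop hle hc ih.2⟩
  | @lay E _ _ K _ hsol hgen hab _ ih =>
    refine ⟨inferInstance, ?_⟩
    have hk : (QuotientGroup.mk' K).ker = K := QuotientGroup.ker_mk' K
    refine Pool.Agent.AB3.rf_refine p _ E (E ⧸ K) (QuotientGroup.mk' K)
      (QuotientGroup.mk'_surjective K) rfl ?_ ?_ ?_ ih.2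
    · rw [hk]
      exact hsol
    · rw [hk]
      exact hgen.ge
    · rw [hk]
      exact hab
  | @cst E _ _ V _ hV hc _ ih =>
    refine ⟨inferInstance, ?_⟩
    have hn : (Pool.Agent.AB3.pg p E).Normal := inferInstance
    have hn' : (pgen p E).Normal := hn
    have hcyc : IsCyclic (E ⧸ Pool.Agent.AB3.pg p E) := by
      obtain ⟨g, hg⟩ := hc
      refine ⟨(g : E ⧸ Pool.Agent.AB3.pg p E), fun x => ?_⟩
      obtain ⟨x, rfl⟩ := QuotientGroup.mk'_surjective _ x
      have hx : x ∈ (⊤ : Subgroup E) := Subgroup.mem_top x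
      rw [← hg] at hx
      obtain ⟨a, ha, b, hb, rfl⟩ := Subgroup.mem_sup_of_normal_left.mp hx
      obtain ⟨k, rfl⟩ := Subgroup.mem_zpowers_iff.mp hb
      refine ⟨k, ?_⟩
      have h1 : (QuotientGroup.mk' (Pool.Agent.AB3.pg p E)) a = 1 :=
        (QuotientGroup.eq_one_iff a).mpr ha
      rw [map_mul, h1, one_mul]
      rfl
    refine Pool.Agent.AB3.rf_cst p E (Pool.Agent.AB3.pg p E) V hV hcyc ?_
    rw [Pool.Agent.AB3.pg_map p hp (QuotientGroup.mk' V) (QuotientGroup.mk'_surjective V)]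
    exact ih.2
  | @wr S G Ω _ _ _ _ hS _ _ ih1 ih2 =>
    obtain ⟨f1, h1⟩ := ih1
    obtain ⟨f2, h2⟩ := ih2
    have hS' : Pool.Agent.AB3.pg p S = ⊤ := hS
    rw [hS'] at h1
    refine ⟨Finite.of_equiv _ SemidirectProduct.equivProd.symm, ?_⟩
    rw [Pool.Agent.AB3.pg_wr p S G Ω hS']
    exact Pool.Agent.AB3.rf_wr p S G Ω (Pool.Agent.AB3.pg p G) h1 h2

end Pool.Agent.Results.MP_5de024_nt.WreathClosure
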